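import Pool.Agent.EG.RS.Defs

/-!
# EG RS Cell: elementary properties of the cells

Proof (helper41):
u_X: k (mu e^((t-bh)/a))^a (yb h)^b = k mu^a e^(t-bh) e^(bh).  k_ne: rho <= |k|, rho > 0.  X_an, phi_an: composition (w_an).  jac_X: jac is the determinant
(fderiv (1,0)).1 * (fderiv (0,1)).2 - (fderiv (0,1)).1 * (fderiv (1,0)).2; d_t x = x/a, d_t y = 0, d_h y = yb' h.
X_slice: |x(t,rh)| = |x(t,0)|^(1-r) |x(t,h)|^r < 2 because |x(t,0)|^a = |mu|^a |e^t| = |e^t|/|k| < 1 (|k mu^a| = 1, |e^t| < rho <= |k|); |yb(rh)|: |r h| <= |h| or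
exp(r Re h) <= max 1 (exp (Re h)) < 2.
phi_le: b = 0: |x|^a = |e^t|/|k|, so |phi e^t| = |w| |x|/a <= C e^(Re t/a).  b >= 1: |x y|/a with m = max a b: |e^t|/|k| = |x|^a |y|^b >= (|x|/2)^a (|y|/2)^b >= (|x||y|/4)^m
(|x|/2, |y|/2 < 1), so |x y| <= 4 (|e^t|/|k|)^(1/m); kappa = 1/m (resp. 1/a).  C from w_bd.   yb_inj: exp is injective on the disc of radius 1 (Complex.exp_inj_of_neg_pi..,
or HasStrictDerivAt.. local inverse).
-/

set_option autoImplicit false

open Topology Filter Metric Set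

namespace Pool.Agent.EG.RS

open Pool.Agent.H14.PP (jac)

variable {ι Y : Type}

/-- membership in the bidisc -/
private theorem cell_mem {p : ℂ × ℂ} : p ∈ ball (0 : ℂ × ℂ) 2 ↔ ‖p.1‖ < 2 ∧ ‖p.2‖ < 2 := by
  rw [mem_ball_zero_iff, Prod.norm_def, max_lt_iff]

private theorem cell_yb_pow (b : ℕ) (h : ℂ) : yb b h ^ b = Complex.exp (b * h) := by
  unfold yb
  split_ifs with hb
  · subst hb
    simp
  · rw [← Complex.exp_nat_mul]

private theorem cell_hasDerivAt (b : ℕ) (h : ℂ) : HasDerivAt (yb b) (yb' b h) h := by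
  by_cases hb : b = 0
  · have h1 : yb b = fun h => h := by
      funext h
      rw [yb, if_pos hb]
    rw [h1, yb', if_pos hb]
    exact hasDerivAt_id h
  · have h1 : yb b = Complex.exp := by
      funext h
      rw [yb, if_neg hb]
    rw [h1, yb', if_neg hb]
    exact Complex.hasDerivAt_exp h

private theorem cell_yb_an (b : ℕ) (h : ℂ) : AnalyticAt ℂ (yb b) h := by
  by_cases hb : b = 0
  · have h1 : yb b = fun h => h := by
      funext h
      rw [yb, if_pos hb]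
    rw [h1]
    exact analyticAt_id
  · have h1 : yb b = Complex.exp := by
      funext h
      rw [yb, if_neg hb]
    rw [h1]
    exact analyticAt_cexp

private theorem cell_yb'_an (b : ℕ) (h : ℂ) : AnalyticAt ℂ (yb' b) h := by
  by_cases hb : b = 0
  · have h1 : yb' b = fun _ => 1 := by
      funext h
      rw [yb', if_pos hb]
    rw [h1]
    exact analyticAt_const
  · have h1 : yb' b = Complex.exp := by
      funext h
      rw [yb', if_neg hb]
    rw [h1]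
    exact analyticAt_cexp

private theorem cell_norm (M : Model ι Y) (i : ι) (μ t g : ℂ) : ‖(M.X i μ t g).1‖ =
    ‖μ‖ * Real.exp (t.re / M.a i) * Real.exp (-(M.b i * g.re / M.a i)) := by
  change ‖μ * Complex.exp ((t - M.b i * g) / M.a i)‖ = _
  have h1 : ((t - M.b i * g) / M.a i).re = t.re / M.a i + -(M.b i * g.re / M.a i) := by
    rw [Complex.div_natCast_re, Complex.sub_re, Complex.mul_re, Complex.natCast_re,
      Complex.natCast_im, zero_mul, sub_zero]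
    ring
  rw [norm_mul, Complex.norm_exp, mul_assoc, ← Real.exp_add, h1]

theorem u_X (M : Model ι Y) {i : ι} {μ : ℂ} (hμ : M.k i * μ ^ M.a i = 1) (t h : ℂ) : M.u i (M.X i μ t h) = Complex.exp t := by
  have ha : (M.a i : ℂ) ≠ 0 := Nat.cast_ne_zero.2 (by have := M.a_pos i; omega)
  have h1 : Complex.exp ((t - M.b i * h) / M.a i) ^ M.a i = Complex.exp (t - M.b i * h) := by
    rw [← Complex.exp_nat_mul, mul_div_cancel₀ _ ha]
  change M.k i * (μ * Complex.exp ((t - M.b i * h) / M.a i)) ^ M.a i * yb (M.b i) h ^ M.b i = _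
  rw [cell_yb_pow, mul_pow, h1, ← mul_assoc, hμ, one_mul, ← Complex.exp_add]
  congr 1
  ring

theorem k_ne (M : Model ι Y) (i : ι) : M.k i ≠ 0 := by
  have h1 := M.ρ_le i
  have h2 := M.ρ_pos
  exact norm_pos_iff.1 (h2.trans_le h1)

theorem X_an (M : Model ι Y) (i : ι) (μ : ℂ) (p : ℂ × ℂ) : AnalyticAt ℂ (fun p : ℂ × ℂ => M.X i μ p.1 p.2) p := by
  have h1 : AnalyticAt ℂ (fun p : ℂ × ℂ => μ * Complex.exp ((p.1 - M.b i * p.2) / M.a i)) p := by
    refine analyticAt_const.mul ?_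
    refine AnalyticAt.cexp ?_
    exact (analyticAt_fst.sub (analyticAt_const.mul analyticAt_snd)).div_const
  have h2 : AnalyticAt ℂ (fun p : ℂ × ℂ => yb (M.b i) p.2) p :=
    (cell_yb_an (M.b i) p.2).fun_comp analyticAt_snd
  exact h1.prod h2

theorem phi_an (M : Model ι Y) {i : ι} {μ : ℂ} {p : ℂ × ℂ} (hp : M.X i μ p.1 p.2 ∈ ball (0 : ℂ × ℂ) 2) :
    AnalyticAt ℂ (fun p : ℂ × ℂ => M.phi i μ p.1 p.2) p := by
  have h1 := X_an M i μ p
  have h2 : AnalyticAt ℂ (fun p : ℂ × ℂ => M.w i (M.X i μ p.1 p.2)) p :=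
    AnalyticAt.fun_comp (g := M.w i) (f := fun p : ℂ × ℂ => M.X i μ p.1 p.2) (M.w_an i _ hp) h1
  have h3 : AnalyticAt ℂ (fun p : ℂ × ℂ => (M.X i μ p.1 p.2).1 / M.a i) p :=
    (AnalyticAt.fun_comp (g := fun q : ℂ × ℂ => q.1) (f := fun p : ℂ × ℂ => M.X i μ p.1 p.2)
      analyticAt_fst h1).div_const
  have h4 : AnalyticAt ℂ (fun p : ℂ × ℂ => yb' (M.b i) p.2) p :=
    (cell_yb'_an (M.b i) p.2).fun_comp analyticAt_snd
  have h5 : AnalyticAt ℂ (fun p : ℂ × ℂ => Complex.exp p.1) p := analyticAt_fst.cexp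
  exact (h2.mul (h3.mul h4)).div h5 (Complex.exp_ne_zero _)

theorem jac_X (M : Model ι Y) (i : ι) (μ : ℂ) (p : ℂ × ℂ) :
    jac (fun p : ℂ × ℂ => M.X i μ p.1 p.2) p = (M.X i μ p.1 p.2).1 / M.a i * yb' (M.b i) p.2 := by
  have h1 : HasFDerivAt (fun p : ℂ × ℂ => μ * Complex.exp ((p.1 - M.b i * p.2) * (M.a i : ℂ)⁻¹))
      (μ • (Complex.exp ((p.1 - M.b i * p.2) * (M.a i : ℂ)⁻¹) •
        ((M.a i : ℂ)⁻¹ • (ContinuousLinearMap.fst ℂ ℂ ℂ - (M.b i : ℂ) • ContinuousLinearMap.snd ℂ ℂ ℂ)))) p :=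
    (((hasFDerivAt_fst.sub (hasFDerivAt_snd.const_mul (M.b i : ℂ))).mul_const
      ((M.a i : ℂ)⁻¹)).cexp.const_mul μ)
  have h2 : HasFDerivAt (fun p : ℂ × ℂ => yb (M.b i) p.2)
      (yb' (M.b i) p.2 • ContinuousLinearMap.snd ℂ ℂ ℂ) p :=
    (cell_hasDerivAt (M.b i) p.2).comp_hasFDerivAt p hasFDerivAt_snd
  have h3 : (fun p : ℂ × ℂ => M.X i μ p.1 p.2) = fun p : ℂ × ℂ =>
      (μ * Complex.exp ((p.1 - M.b i * p.2) * (M.a i : ℂ)⁻¹), yb (M.b i) p.2) := by
    funext p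
    rw [← div_eq_mul_inv]
    rfl
  have h4 := (h1.prodMk h2).fderiv
  rw [jac, h3, h4]
  simp only [ContinuousLinearMap.prod_apply, smul_apply, sub_apply, ContinuousLinearMap.coe_fst',
    ContinuousLinearMap.coe_snd', smul_eq_mul]
  change _ = μ * Complex.exp ((p.1 - M.b i * p.2) / M.a i) / M.a i * yb' (M.b i) p.2
  rw [div_eq_mul_inv (p.1 - M.b i * p.2)]
  ring

/-- the slices of the cells are star shaped -/
theorem X_slice (M : Model ι Y) {i : ι} {μ t h : ℂ} (hμ : M.k i * μ ^ M.a i = 1) (ht : ‖Complex.exp t‖ < M.ρ)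
    (hX : M.X i μ t h ∈ ball (0 : ℂ × ℂ) 2) {r : ℝ} (hr : r ∈ Icc (0 : ℝ) 1) : M.X i μ t (r * h) ∈ ball (0 : ℂ × ℂ) 2 := by
  obtain ⟨hr0, hr1⟩ := hr
  rw [cell_mem] at hX ⊢
  obtain ⟨h1, h2⟩ := hX
  have ha : 0 < (M.a i : ℝ) := Nat.cast_pos.2 (M.a_pos i)
  have hexp : ∀ c : ℝ, Real.exp (r * c) ≤ max 1 (Real.exp c) := by
    intro c
    rcases le_total c 0 with hc | hc
    · refine le_max_of_le_left ?_
      rw [Real.exp_le_one_iff]
      exact mul_nonpos_of_nonneg_of_nonpos hr0 hc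
    · refine le_max_of_le_right (Real.exp_le_exp.2 ?_)
      nlinarith
  have hnorm := cell_norm M i μ t
  have hA : ‖μ‖ * Real.exp (t.re / M.a i) < 1 := by
    by_contra hcon
    push Not at hcon
    have h3 : (1 : ℝ) ≤ (‖μ‖ * Real.exp (t.re / M.a i)) ^ M.a i := one_le_pow₀ hcon
    have h4 : (‖μ‖ * Real.exp (t.re / M.a i)) ^ M.a i = ‖μ‖ ^ M.a i * ‖Complex.exp t‖ := by
      rw [mul_pow, ← Real.exp_nat_mul, mul_div_cancel₀ _ ha.ne', Complex.norm_exp]
    have h5 : ‖M.k i‖ * ‖μ‖ ^ M.a i = 1 := by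
      rw [← norm_pow, ← norm_mul, hμ, norm_one]
    have h6 : ‖Complex.exp t‖ < ‖M.k i‖ := ht.trans_le (M.ρ_le i)
    have h7 : 0 < ‖μ‖ ^ M.a i := by
      by_contra h8
      push Not at h8
      nlinarith [norm_nonneg (M.k i)]
    rw [h4] at h3
    nlinarith
  have hA0 : 0 ≤ ‖μ‖ * Real.exp (t.re / M.a i) := by positivity
  constructor
  · rw [hnorm] at h1 ⊢
    have h3 : -(M.b i * ((r : ℂ) * h).re / M.a i) = r * -(M.b i * h.re / M.a i) := by
      rw [Complex.re_ofReal_mul]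
      ring
    rw [h3]
    have h4 := hexp (-(M.b i * h.re / M.a i))
    refine (mul_le_mul_of_nonneg_left h4 hA0).trans_lt ?_
    rw [mul_max_of_nonneg _ _ hA0]
    refine max_lt ?_ h1
    linarith
  · change ‖yb (M.b i) h‖ < 2 at h2
    change ‖yb (M.b i) (r * h)‖ < 2
    unfold yb at h2 ⊢
    split_ifs at h2 ⊢ with hb
    · rw [norm_mul, Complex.norm_real, Real.norm_of_nonneg hr0]
      nlinarith [norm_nonneg h]
    · rw [Complex.norm_exp] at h2 ⊢
      rw [Complex.re_ofReal_mul]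
      refine (hexp _).trans_lt (max_lt ?_ h2)
      norm_num

theorem phi_le (M : Model ι Y) (i : ι) : ∃ C κ : ℝ, 0 < κ ∧ ∀ μ t h : ℂ, M.k i * μ ^ M.a i = 1 →
    M.X i μ t h ∈ ball (0 : ℂ × ℂ) 2 → t.re ≤ 0 → ‖M.phi i μ t h * Complex.exp t‖ ≤ C * Real.exp (κ * t.re) := by
  obtain ⟨C₀, hC₀⟩ := M.w_bd i
  have hk := k_ne M i
  have hk' : 0 < ‖M.k i‖ := norm_pos_iff.2 hk
  have hapos := M.a_pos i
  have ha : (1 : ℝ) ≤ M.a i := by exact_mod_cast hapos
  set m : ℕ := max (M.a i) (M.b i) with hm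
  have hm1 : 1 ≤ m := hapos.trans (le_max_left _ _)
  set m₀ : ℝ := max 1 (1 / ‖M.k i‖) with hm₀
  have hm₀1 : 1 ≤ m₀ := le_max_left _ _
  refine ⟨4 * max C₀ 0 * m₀, 1 / m, by positivity, fun μ t h hμ hX ht => ?_⟩
  have hX' := hX
  rw [cell_mem] at hX'
  obtain ⟨hx, hy⟩ := hX'
  have hphi : M.phi i μ t h * Complex.exp t =
      M.w i (M.X i μ t h) * ((M.X i μ t h).1 / M.a i * yb' (M.b i) h) :=
    div_mul_cancel₀ _ (Complex.exp_ne_zero t)
  rw [hphi, norm_mul, norm_mul, norm_div, Complex.norm_natCast]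
  have hw : ‖M.w i (M.X i μ t h)‖ ≤ max C₀ 0 := (hC₀ _ hX).trans (le_max_left _ _)
  have hu := congrArg norm (u_X M hμ t h)
  change ‖M.k i * (M.X i μ t h).1 ^ M.a i * (M.X i μ t h).2 ^ M.b i‖ = _ at hu
  rw [norm_mul, norm_mul, norm_pow, norm_pow, Complex.norm_exp] at hu
  generalize (M.X i μ t h).1 = x at hx hu ⊢
  have hyd : (M.X i μ t h).2 = yb (M.b i) h := rfl
  rw [hyd] at hy hu
  have hX0 : 0 ≤ ‖x‖ := norm_nonneg _
  -- the main estimate
  have key : ‖x‖ * ‖yb' (M.b i) h‖ / 4 ≤ m₀ * Real.exp (1 / m * t.re) := by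
    have hR : 0 ≤ m₀ * Real.exp (1 / m * t.re) := by positivity
    refine le_of_pow_le_pow_left₀ (n := m) (by omega) hR ?_
    have h1 : (m₀ * Real.exp (1 / m * t.re)) ^ m = m₀ ^ m * Real.exp t.re := by
      rw [mul_pow, ← Real.exp_nat_mul]
      congr 2
      field_simp
    have h2 : m₀ ≤ m₀ ^ m := le_self_pow₀ hm₀1 (by omega)
    have h3 : ‖x‖ ^ M.a i * ‖yb (M.b i) h‖ ^ M.b i ≤ m₀ * Real.exp t.re := by
      have h4 : ‖x‖ ^ M.a i * ‖yb (M.b i) h‖ ^ M.b i = 1 / ‖M.k i‖ * Real.exp t.re := by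
        rw [← hu]
        field_simp
      rw [h4]
      exact mul_le_mul_of_nonneg_right (le_max_right _ _) (Real.exp_pos _).le
    rw [h1]
    refine le_trans ?_ (h3.trans (mul_le_mul_of_nonneg_right h2 (Real.exp_pos _).le))
    have hxa : (‖x‖ / 2) ^ m ≤ (‖x‖ / 2) ^ M.a i :=
      pow_le_pow_of_le_one (by positivity) (by linarith) (le_max_left _ _)
    have hxb : (‖x‖ / 2) ^ M.a i ≤ ‖x‖ ^ M.a i :=
      pow_le_pow_left₀ (by positivity) (by linarith) _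
    by_cases hb : M.b i = 0
    · have h5 : yb' (M.b i) h = 1 := by rw [yb', if_pos hb]
      rw [h5, norm_one, mul_one, hb, pow_zero, mul_one]
      refine le_trans (pow_le_pow_left₀ (by positivity) ?_ _) (hxa.trans hxb)
      linarith
    · have h5 : yb' (M.b i) h = yb (M.b i) h := by rw [yb', yb, if_neg hb, if_neg hb]
      rw [h5]
      have hy0 : 0 ≤ ‖yb (M.b i) h‖ := norm_nonneg _
      generalize ‖yb (M.b i) h‖ = y at hy hy0 ⊢
      have hya : (y / 2) ^ m ≤ (y / 2) ^ M.b i :=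
        pow_le_pow_of_le_one (by positivity) (by linarith) (le_max_right _ _)
      have hyb : (y / 2) ^ M.b i ≤ y ^ M.b i :=
        pow_le_pow_left₀ (by positivity) (by linarith) _
      have h6 : (‖x‖ * y / 4) ^ m = (‖x‖ / 2) ^ m * (y / 2) ^ m := by
        rw [← mul_pow]
        congr 1
        ring
      rw [h6]
      exact mul_le_mul (hxa.trans hxb) (hya.trans hyb) (by positivity) (by positivity)
  have hyb0 : 0 ≤ ‖yb' (M.b i) h‖ := norm_nonneg _
  have hxa : ‖x‖ / M.a i ≤ ‖x‖ := div_le_self hX0 ha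
  calc ‖M.w i (M.X i μ t h)‖ * (‖x‖ / M.a i * ‖yb' (M.b i) h‖)
      ≤ max C₀ 0 * (‖x‖ * ‖yb' (M.b i) h‖) := by gcongr
    _ ≤ max C₀ 0 * (4 * (m₀ * Real.exp (1 / m * t.re))) :=
        mul_le_mul_of_nonneg_left (by linarith) (le_max_right _ _)
    _ = _ := by ring

theorem yb_inj (b : ℕ) (h₀ : ℂ) : ∃ δ : ℝ, 0 < δ ∧ ∀ h ∈ ball h₀ δ, ∀ h' ∈ ball h₀ δ, yb b h = yb b h' → h = h' := by
  refine ⟨1, one_pos, fun h hh h' hh' heq => ?_⟩
  unfold yb at heq
  split_ifs at heq with hb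
  · exact heq
  · obtain ⟨n, hn⟩ := Complex.exp_eq_exp_iff_exists_int.1 heq
    have h1 : ‖h - h'‖ < 2 := by
      rw [mem_ball, dist_eq_norm] at hh hh'
      calc ‖h - h'‖ = ‖(h - h₀) - (h' - h₀)‖ := by
            congr 1
            ring
        _ ≤ ‖h - h₀‖ + ‖h' - h₀‖ := norm_sub_le _ _
        _ < 2 := by linarith
    have h2 : h - h' = n * (2 * Real.pi * Complex.I) := by
      rw [hn]
      ring
    rw [h2, norm_mul, norm_mul, norm_mul, Complex.norm_I, mul_one, Complex.norm_intCast,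
      Complex.norm_real, Real.norm_of_nonneg Real.pi_pos.le] at h1
    have h3 : (n : ℝ) = 0 := by
      by_contra h4
      have h5 : (1 : ℝ) ≤ |(n : ℝ)| := by
        have h6 : n ≠ 0 := by exact_mod_cast h4
        exact_mod_cast Int.one_le_abs h6
      have h7 : ‖(2 : ℂ)‖ = 2 := by norm_num
      rw [h7] at h1
      nlinarith [Real.pi_gt_three]
    have h8 : n = 0 := by exact_mod_cast h3
    rw [hn, h8]
    simp

end Pool.Agent.EG.RS
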