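import Pool.Agent.H14.PP.Defs

/-!
# EG RS Defs: cells near a singular fibre

A surface near the fibre over `0` of a function `u`, described by charts `s i` on the bidisc of radius `2`, in which `u` is `k x ^ a y ^ b`, `1 ≤ a`.
The points are in an arbitrary type `Y`.  `w i` is the density of a holomorphic 2-form.  If `1 ≤ b i` (crossing charts) then the chart with the two
coordinates exchanged is also in the family.  All points near the fibre over `0` are central in some chart.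
We work in the variable `t`, `z = exp t`.  A cell is `(i, μ)` with `k μ ^ a = 1`; it is the map `(t, h) ↦ (μ exp ((t - b h) / a), exp h)` (`1 ≤ b`) or
`(t, h) ↦ (μ exp (t / a), h)` (`b = 0`) to the bidisc.
-/

set_option autoImplicit false

open Topology Filter Metric Set

namespace Pool.Agent.EG.RS

open Pool.Agent.H14.PP (jac)

/-- the charts -/
structure Atl (ι Y : Type) where
  /-- the parametrization -/
  s : ι → ℂ × ℂ → Y
  /-- the first exponent -/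
  a : ι → ℕ
  /-- the second exponent -/
  b : ι → ℕ
  /-- the constant -/
  k : ι → ℂ
  /-- the density of the form -/
  w : ι → ℂ × ℂ → ℂ

/-- the function `u` in a chart -/
def Atl.u {ι Y : Type} (M : Atl ι Y) (i : ι) (p : ℂ × ℂ) : ℂ := M.k i * p.1 ^ M.a i * p.2 ^ M.b i

/-- the central part of the bidisc -/
def Cen (p : ℂ × ℂ) : Prop := ‖p.1‖ < 1 / 2 ∧ ‖p.2‖ < 1

/-- `j` is the crossing chart `i` with the coordinates exchanged -/
def Atl.Sw {ι Y : Type} (M : Atl ι Y) (i j : ι) : Prop :=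
  1 ≤ M.b i ∧ M.a j = M.b i ∧ M.b j = M.a i ∧ M.k j = M.k i ∧
    ∀ p ∈ ball (0 : ℂ × ℂ) 2, M.s j p = M.s i p.swap ∧ M.w j p = -M.w i p.swap

/-- the change of coordinates `τ` from the chart `j` to the chart `i`, from `q` to `p`, away from the crossing points -/
def Atl.Rg {ι Y : Type} (M : Atl ι Y) (η : ℝ) (i j : ι) (p q : ℂ × ℂ) : Prop :=
  ∃ τ : ℂ × ℂ → ℂ × ℂ, τ q = p ∧
    (∀ x ∈ ball q η, AnalyticAt ℂ τ x ∧ τ x ∈ ball p (1 / 4) ∧ M.s j x = M.s i (τ x) ∧ M.u i (τ x) = M.u j x ∧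
      M.w j x = M.w i (τ x) * jac τ x) ∧
    (1 ≤ M.b i → 1 / 2 ≤ ‖p.2‖) ∧ (1 ≤ M.b j → 1 / 2 ≤ ‖q.2‖) ∧ ‖q.1‖ ≤ η / 4

/-- the surface near the fibre over `0` -/
structure Model (ι Y : Type) extends Atl ι Y where
  /-- the radius of the disc -/
  ρ : ℝ
  /-- the size of the overlaps -/
  η : ℝ
  ρ_pos : 0 < ρ
  ρ_le : ∀ i, ρ ≤ ‖k i‖
  η_pos : 0 < η
  η_le : η ≤ 1 / 4
  a_pos : ∀ i, 1 ≤ a i
  inj : ∀ i, InjOn (s i) (ball 0 2)
  w_an : ∀ i, ∀ p ∈ ball (0 : ℂ × ℂ) 2, AnalyticAt ℂ (w i) p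
  w_bd : ∀ i, ∃ C : ℝ, ∀ p ∈ ball (0 : ℂ × ℂ) 2, ‖w i p‖ ≤ C
  trans : ∀ i j p q, Cen p → Cen q → s i p = s j q → toAtl.u i p ≠ 0 → ‖toAtl.u i p‖ < ρ →
    i = j ∨ toAtl.Sw i j ∨ toAtl.Rg η i j p q

variable {ι Y : Type}

/-- `f` is a holomorphic section near `z₀` -/
def Atl.Hol (M : Atl ι Y) (f : ℂ → Y) (z₀ : ℂ) : Prop :=
  ∀ i p, p ∈ ball (0 : ℂ × ℂ) 2 → f z₀ = M.s i p →
    ∃ P : ℂ → ℂ × ℂ, AnalyticAt ℂ P z₀ ∧ P z₀ = p ∧ ∀ᶠ z in 𝓝 z₀, f z = M.s i (P z) ∧ M.u i (P z) = z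

/-- the point `f z₀` is a central point of some chart -/
def Atl.Cov (M : Atl ι Y) (f : ℂ → Y) (z₀ : ℂ) : Prop := ∃ i p, Cen p ∧ f z₀ = M.s i p

/-- the second coordinate as a function of `h` -/
noncomputable def yb (b : ℕ) (h : ℂ) : ℂ := if b = 0 then h else Complex.exp h

/-- the derivative of `yb` -/
noncomputable def yb' (b : ℕ) (h : ℂ) : ℂ := if b = 0 then 1 else Complex.exp h

/-- the cell `(i, μ)` -/
noncomputable def Atl.X (M : Atl ι Y) (i : ι) (μ t h : ℂ) : ℂ × ℂ :=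
  (μ * Complex.exp ((t - M.b i * h) / M.a i), yb (M.b i) h)

/-- the density of the form `w / du` in the cell -/
noncomputable def Atl.phi (M : Atl ι Y) (i : ι) (μ t h : ℂ) : ℂ :=
  M.w i (M.X i μ t h) * ((M.X i μ t h).1 / M.a i * yb' (M.b i) h) / Complex.exp t

/-- its primitive with respect to `h` -/
noncomputable def Atl.P (M : Atl ι Y) (i : ι) (μ t h : ℂ) : ℂ := h * ∫ r in (0 : ℝ)..1, M.phi i μ t (r * h)

/-- a strip which is unbounded to the left -/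
def Strip (t₀ : ℂ) (ε : ℝ) : Set ℂ := {t | t.re < t₀.re + ε ∧ |t.im - t₀.im| < ε}

/-- `M` is holomorphic on a strip to the left of `t₀`, and `M t * exp t → 0` -/
def Left (M : ℂ → ℂ) (t₀ : ℂ) : Prop :=
  ∃ ε : ℝ, 0 < ε ∧ DifferentiableOn ℂ M (Strip t₀ ε) ∧
    ∀ δ : ℝ, 0 < δ → ∃ R : ℝ, ∀ t ∈ Strip t₀ ε, t.re < R → ‖M t * Complex.exp t‖ < δ

/-- near `t₀` the curve `f (exp t)` is the curve `h` in the cell `(i, μ)` -/
def Atl.Dat (M : Atl ι Y) (f : ℂ → Y) (i : ι) (μ : ℂ) (h : ℂ → ℂ) (t₀ : ℂ) : Prop :=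
  M.k i * μ ^ M.a i = 1 ∧ AnalyticAt ℂ h t₀ ∧ Cen (M.X i μ t₀ (h t₀)) ∧
    ∀ᶠ t in 𝓝 t₀, f (Complex.exp t) = M.s i (M.X i μ t (h t))

/-- the start: near `t₀` the function `A` is the integral from `f` to `g` in one cell -/
def Atl.Start (M : Atl ι Y) (f g : ℂ → Y) (A : ℂ → ℂ) (t₀ : ℂ) : Prop :=
  ∃ (i : ι) (μ : ℂ) (hf hg : ℂ → ℂ), M.Dat f i μ hf t₀ ∧ M.Dat g i μ hg t₀ ∧
    ∀ᶠ t in 𝓝 t₀, A (Complex.exp t) = M.P i μ t (hg t) - M.P i μ t (hf t)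

/-- the cells `(i, μ)` and `(j, ν)` are linked at `t₀`: the difference of the primitives only depends on `t` and extends to the left -/
def Atl.Link (M : Atl ι Y) (i : ι) (μ : ℂ) (j : ι) (ν : ℂ) (t₀ h₀ h₁ : ℂ) : Prop :=
  ∃ D : ℂ → ℂ, Left D t₀ ∧ ∀ hi hj : ℂ → ℂ, AnalyticAt ℂ hi t₀ → AnalyticAt ℂ hj t₀ → hi t₀ = h₀ → hj t₀ = h₁ →
    (∀ᶠ t in 𝓝 t₀, M.s i (M.X i μ t (hi t)) = M.s j (M.X j ν t (hj t))) →
    ∀ᶠ t in 𝓝 t₀, M.P i μ t (hi t) - M.P j ν t (hj t) = D t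

end Pool.Agent.EG.RS
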