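import Pool.Agent.EG.RS.Cell

/-!
# EG RS Prim: the primitive in a cell

Proof (helper41):
P_deriv: fixed t; phi(t, r h) is analytic in h near h uniformly in r in [0,1] (X_slice + openness + compactness of [0,1]);
d/dh (h int phi(t, r h) dr) = int (phi(t, r h) + r h phi'(t, r h)) dr = int_0^1 d/dr (r phi(t, r h)) dr = phi(t,h)  (d/dr along the real segment, FTC).
P_an: phi(t, r h(t)) is analytic in t on a ball (uniform in r), jointly continuous; integral of holomorphic functions is holomorphic (hasDerivAt_integral_of_dominated_loc_of_deriv_le,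
derivative bounded on a smaller ball by continuity/compactness).
-/

set_option autoImplicit false

open Topology Filter Metric Set

namespace Pool.Agent.EG.RS

variable {ι Y : Type}

/-- the parameters near `z₀` for which the integrand is analytic along the whole segment -/
private theorem prim_tube {G : ℂ × ℂ → ℂ} {z₀ : ℂ} (hG : ∀ r ∈ Icc (0 : ℝ) 1, AnalyticAt ℂ G (z₀, (r : ℂ))) :
    ∃ ε : ℝ, 0 < ε ∧ ∀ z ∈ ball z₀ ε, ∀ r ∈ Icc (0 : ℝ) 1, AnalyticAt ℂ G (z, (r : ℂ)) := by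
  have hcont : Continuous (fun p : ℂ × ℝ => ((p.1, (p.2 : ℂ)) : ℂ × ℂ)) := by fun_prop
  have hopen : IsOpen ((fun p : ℂ × ℝ => ((p.1, (p.2 : ℂ)) : ℂ × ℂ)) ⁻¹' {x | AnalyticAt ℂ G x}) :=
    (isOpen_analyticAt ℂ G).preimage hcont
  obtain ⟨u, v, hu, -, hsu, htv, huv⟩ := generalized_tube_lemma (isCompact_singleton (x := z₀)) (isCompact_Icc (a := (0 : ℝ)) (b := 1)) hopen
    (by
      rintro ⟨z, r⟩ ⟨hz, hr⟩
      rw [mem_singleton_iff] at hz
      simp only at hz hr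
      subst hz
      exact hG r hr)
  obtain ⟨ε, hε, hball⟩ := Metric.isOpen_iff.1 hu z₀ (hsu rfl)
  exact ⟨ε, hε, fun z hz r hr => huv (mk_mem_prod (hball hz) (htv hr))⟩

private theorem prim_line {G : ℂ × ℂ → ℂ} {z s : ℂ} (h : AnalyticAt ℂ G (z, s)) :
    HasDerivAt (fun z => G (z, s)) (fderiv ℂ G (z, s) (1, 0)) z := by
  have h1 : HasDerivAt (fun z : ℂ => ((z, s) : ℂ × ℂ)) ((1, 0) : ℂ × ℂ) z := (hasDerivAt_id z).prodMk (hasDerivAt_const z s)
  exact h.differentiableAt.hasFDerivAt.comp_hasDerivAt z h1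

/-- differentiation under the integral sign -/
private theorem prim_int {G : ℂ × ℂ → ℂ} {z₀ : ℂ} (hG : ∀ r ∈ Icc (0 : ℝ) 1, AnalyticAt ℂ G (z₀, (r : ℂ))) :
    HasDerivAt (fun z => ∫ r in (0 : ℝ)..1, G (z, (r : ℂ))) (∫ r in (0 : ℝ)..1, fderiv ℂ G (z₀, (r : ℂ)) (1, 0)) z₀ := by
  obtain ⟨ε, hε, hball⟩ := prim_tube hG
  have hsub : ∀ z ∈ closedBall z₀ (ε / 2), z ∈ ball z₀ ε := fun z hz => by
    rw [mem_closedBall] at hz
    rw [mem_ball]
    linarith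
  have hIoc : ∀ r : ℝ, r ∈ Set.uIoc (0 : ℝ) 1 → r ∈ Icc (0 : ℝ) 1 := fun r hr => by
    rw [Set.uIoc_of_le zero_le_one] at hr
    exact ⟨hr.1.le, hr.2⟩
  have hc : ContinuousOn (fun p : ℂ × ℝ => fderiv ℂ G (p.1, (p.2 : ℂ)) (1, 0)) (closedBall z₀ (ε / 2) ×ˢ Icc (0 : ℝ) 1) := by
    rintro ⟨z, r⟩ ⟨hz, hr⟩
    have h1 : ContinuousAt (fderiv ℂ G) (z, (r : ℂ)) := (hball z (hsub z hz) r hr).fderiv.continuousAt
    have h2 : ContinuousAt (fun p : ℂ × ℝ => ((p.1, (p.2 : ℂ)) : ℂ × ℂ)) (z, r) := by fun_prop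
    have h3 : ContinuousAt (fun p : ℂ × ℝ => fderiv ℂ G (p.1, (p.2 : ℂ))) (z, r) := ContinuousAt.comp (f := fun p : ℂ × ℝ => ((p.1, (p.2 : ℂ)) : ℂ × ℂ)) h1 h2
    exact (h3.clm_apply continuousAt_const).continuousWithinAt
  obtain ⟨C, hC⟩ := ((isCompact_closedBall z₀ (ε / 2)).prod (isCompact_Icc (a := (0 : ℝ)) (b := 1))).exists_bound_of_continuousOn hc
  have hcG : ∀ z ∈ ball z₀ ε, ContinuousOn (fun r : ℝ => G (z, (r : ℂ))) (Icc (0 : ℝ) 1) := fun z hz r hr => by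
    have h1 : ContinuousAt G (z, (r : ℂ)) := (hball z hz r hr).continuousAt
    have h2 : ContinuousAt (fun r : ℝ => ((z, (r : ℂ)) : ℂ × ℂ)) r := by fun_prop
    exact (ContinuousAt.comp (f := fun r : ℝ => ((z, (r : ℂ)) : ℂ × ℂ)) h1 h2).continuousWithinAt
  have hcG' : ContinuousOn (fun r : ℝ => fderiv ℂ G (z₀, (r : ℂ)) (1, 0)) (Icc (0 : ℝ) 1) := by
    have h2 : ContinuousOn (fun r : ℝ => ((z₀, r) : ℂ × ℝ)) (Icc (0 : ℝ) 1) := by fun_prop
    exact hc.comp h2 (fun r hr => mk_mem_prod (mem_closedBall_self (by positivity)) hr)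
  have hint : ∀ f : ℝ → ℂ, ContinuousOn f (Icc (0 : ℝ) 1) → IntervalIntegrable f MeasureTheory.volume 0 1 := fun f hf => by
    apply ContinuousOn.intervalIntegrable
    rwa [Set.uIcc_of_le zero_le_one]
  refine (intervalIntegral.hasDerivAt_integral_of_dominated_loc_of_deriv_le (F := fun z (r : ℝ) => G (z, (r : ℂ))) (F' := fun z (r : ℝ) => fderiv ℂ G (z, (r : ℂ)) (1, 0))
    (bound := fun _ => C) (s := ball z₀ (ε / 2)) (ball_mem_nhds z₀ (by positivity)) ?_ (hint _ (hcG z₀ (mem_ball_self hε))) ?_ ?_ intervalIntegrable_const ?_).2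
  · filter_upwards [ball_mem_nhds z₀ hε] with z hz
    exact (hint _ (hcG z hz)).aestronglyMeasurable_restrict_uIoc
  · exact (hint _ hcG').aestronglyMeasurable_restrict_uIoc
  · refine Eventually.of_forall fun r hr z hz => ?_
    exact hC (z, r) (mk_mem_prod (ball_subset_closedBall hz) (hIoc r hr))
  · refine Eventually.of_forall fun r hr z hz => ?_
    exact prim_line (hball z (hsub z (ball_subset_closedBall hz)) r (hIoc r hr))

private theorem prim_int_an {G : ℂ × ℂ → ℂ} {z₀ : ℂ} (hG : ∀ r ∈ Icc (0 : ℝ) 1, AnalyticAt ℂ G (z₀, (r : ℂ))) :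
    AnalyticAt ℂ (fun z => ∫ r in (0 : ℝ)..1, G (z, (r : ℂ))) z₀ := by
  obtain ⟨ε, hε, hball⟩ := prim_tube hG
  have h : DifferentiableOn ℂ (fun z => ∫ r in (0 : ℝ)..1, G (z, (r : ℂ))) (ball z₀ ε) := fun z hz =>
    (prim_int (hball z hz)).differentiableAt.differentiableWithinAt
  exact h.analyticAt (ball_mem_nhds z₀ hε)

theorem P_deriv (M : Model ι Y) {i : ι} {μ t h : ℂ} (hμ : M.k i * μ ^ M.a i = 1) (ht : ‖Complex.exp t‖ < M.ρ)
    (hX : M.X i μ t h ∈ ball (0 : ℂ × ℂ) 2) : HasDerivAt (fun h => M.P i μ t h) (M.phi i μ t h) h := by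
  have hphi : ∀ r ∈ Icc (0 : ℝ) 1, AnalyticAt ℂ (fun y : ℂ => M.phi i μ t y) (r * h) := fun r hr => by
    have h1 := phi_an M (i := i) (μ := μ) (p := (t, (r : ℂ) * h)) (X_slice M hμ ht hX hr)
    have h2 : AnalyticAt ℂ (fun y : ℂ => ((t, y) : ℂ × ℂ)) ((r : ℂ) * h) := by fun_prop
    exact AnalyticAt.fun_comp (f := fun y : ℂ => ((t, y) : ℂ × ℂ)) h1 h2
  set G : ℂ × ℂ → ℂ := fun p => M.phi i μ t (p.2 * p.1) with hGdef
  have hG : ∀ r ∈ Icc (0 : ℝ) 1, AnalyticAt ℂ G (h, (r : ℂ)) := fun r hr => by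
    have h2 : AnalyticAt ℂ (fun p : ℂ × ℂ => p.2 * p.1) (h, (r : ℂ)) := analyticAt_snd.mul analyticAt_fst
    exact AnalyticAt.fun_comp (g := fun y : ℂ => M.phi i μ t y) (f := fun p : ℂ × ℂ => p.2 * p.1) (hphi r hr) h2
  have hJ := prim_int hG
  have hP : HasDerivAt (fun h => M.P i μ t h)
      (1 * (∫ r in (0 : ℝ)..1, G (h, (r : ℂ))) + h * ∫ r in (0 : ℝ)..1, fderiv ℂ G (h, (r : ℂ)) (1, 0)) h := (hasDerivAt_id h).mul hJ
  have hψ : ∀ r ∈ Icc (0 : ℝ) 1, HasDerivAt (fun r : ℝ => (r : ℂ) * G (h, (r : ℂ))) (G (h, (r : ℂ)) + h * fderiv ℂ G (h, (r : ℂ)) (1, 0)) r := fun r hr => by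
    have h1 : fderiv ℂ G (h, (r : ℂ)) (1, 0) = deriv (fun y : ℂ => M.phi i μ t y) (r * h) * r := by
      have h2 := prim_line (hG r hr)
      have h3 : HasDerivAt (fun z : ℂ => G (z, (r : ℂ))) (deriv (fun y : ℂ => M.phi i μ t y) (r * h) * r) h := by
        have h4 : HasDerivAt (fun z : ℂ => (r : ℂ) * z) (r : ℂ) h := by simpa using (hasDerivAt_id h).const_mul (r : ℂ)
        exact HasDerivAt.comp h (h₂ := fun y : ℂ => M.phi i μ t y) (hphi r hr).differentiableAt.hasDerivAt h4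
      exact h2.unique h3
    have h5 : HasDerivAt (fun s : ℂ => s * G (h, s)) (1 * G (h, (r : ℂ)) + (r : ℂ) * (deriv (fun y : ℂ => M.phi i μ t y) (r * h) * h)) (r : ℂ) := by
      have h4 : HasDerivAt (fun z : ℂ => z * h) h (r : ℂ) := by simpa using (hasDerivAt_id (r : ℂ)).mul_const h
      exact (hasDerivAt_id (r : ℂ)).mul (HasDerivAt.comp (r : ℂ) (h₂ := fun y : ℂ => M.phi i μ t y) (hphi r hr).differentiableAt.hasDerivAt h4)
    have h6 := h5.comp_ofReal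
    refine h6.congr_deriv ?_
    rw [h1]
    ring
  have hcont : ∀ r ∈ Icc (0 : ℝ) 1, ContinuousAt (fun r : ℝ => G (h, (r : ℂ))) r ∧ ContinuousAt (fun r : ℝ => fderiv ℂ G (h, (r : ℂ)) (1, 0)) r := fun r hr => by
    have h2 : ContinuousAt (fun r : ℝ => ((h, (r : ℂ)) : ℂ × ℂ)) r := by fun_prop
    refine ⟨ContinuousAt.comp (f := fun r : ℝ => ((h, (r : ℂ)) : ℂ × ℂ)) (hG r hr).continuousAt h2, ?_⟩
    exact (ContinuousAt.comp (f := fun r : ℝ => ((h, (r : ℂ)) : ℂ × ℂ)) (hG r hr).fderiv.continuousAt h2).clm_apply continuousAt_const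
  have hi1 : IntervalIntegrable (fun r : ℝ => G (h, (r : ℂ))) MeasureTheory.volume 0 1 := by
    apply ContinuousOn.intervalIntegrable
    rw [Set.uIcc_of_le zero_le_one]
    exact fun r hr => (hcont r hr).1.continuousWithinAt
  have hi2 : IntervalIntegrable (fun r : ℝ => fderiv ℂ G (h, (r : ℂ)) (1, 0)) MeasureTheory.volume 0 1 := by
    apply ContinuousOn.intervalIntegrable
    rw [Set.uIcc_of_le zero_le_one]
    exact fun r hr => (hcont r hr).2.continuousWithinAt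
  have hFTC := intervalIntegral.integral_eq_sub_of_hasDerivAt (a := (0 : ℝ)) (b := 1) (f := fun r : ℝ => (r : ℂ) * G (h, (r : ℂ)))
    (f' := fun r : ℝ => G (h, (r : ℂ)) + h * fderiv ℂ G (h, (r : ℂ)) (1, 0)) (by rw [Set.uIcc_of_le zero_le_one]; exact hψ) (hi1.add (hi2.const_mul h))
  rw [intervalIntegral.integral_add hi1 (hi2.const_mul h), intervalIntegral.integral_const_mul] at hFTC
  refine hP.congr_deriv ?_
  rw [one_mul, hFTC]
  simp [hGdef]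

theorem P_an (M : Model ι Y) {i : ι} {μ t₀ : ℂ} {h : ℂ → ℂ} (hμ : M.k i * μ ^ M.a i = 1) (ht : ‖Complex.exp t₀‖ < M.ρ)
    (hh : AnalyticAt ℂ h t₀) (hX : M.X i μ t₀ (h t₀) ∈ ball (0 : ℂ × ℂ) 2) : AnalyticAt ℂ (fun t => M.P i μ t (h t)) t₀ := by
  set G : ℂ × ℂ → ℂ := fun p => M.phi i μ p.1 (p.2 * h p.1) with hGdef
  have hG : ∀ r ∈ Icc (0 : ℝ) 1, AnalyticAt ℂ G (t₀, (r : ℂ)) := fun r hr => by
    have h1 := phi_an M (i := i) (μ := μ) (p := (t₀, (r : ℂ) * h t₀)) (X_slice M hμ ht hX hr)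
    have h2 : AnalyticAt ℂ (fun p : ℂ × ℂ => h p.1) (t₀, (r : ℂ)) := AnalyticAt.fun_comp (g := h) (f := fun p : ℂ × ℂ => p.1) hh analyticAt_fst
    have h3 : AnalyticAt ℂ (fun p : ℂ × ℂ => ((p.1, p.2 * h p.1) : ℂ × ℂ)) (t₀, (r : ℂ)) := by
      have h4 : AnalyticAt ℂ (fun p : ℂ × ℂ => p.1) (t₀, (r : ℂ)) := analyticAt_fst
      have h5 : AnalyticAt ℂ (fun p : ℂ × ℂ => p.2) (t₀, (r : ℂ)) := analyticAt_snd
      exact h4.prod (h5.mul h2)
    exact AnalyticAt.fun_comp (g := fun p : ℂ × ℂ => M.phi i μ p.1 p.2) (f := fun p : ℂ × ℂ => ((p.1, p.2 * h p.1) : ℂ × ℂ)) h1 h3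
  exact hh.mul (prim_int_an hG)

end Pool.Agent.EG.RS
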